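import Pool.Agent.H.MP_b2345f_al.Kg

set_option autoImplicit false

namespace Pool.Agent.H.MP_b2345f_al

inductive St | s0 | sA | sAu | sAv | sB | sBV | sT0 | sTc | sTC | sTU | sEnd | dead
deriving DecidableEq

instance : Fintype St where
  elems := {.s0, .sA, .sAu, .sAv, .sB, .sBV, .sT0, .sTc, .sTC, .sTU, .sEnd, .dead}
  complete x := by cases x <;> decide

open St

def dl : St → ℕ → St
  | s0, 0 => sA | s0, 1 => sT0 | s0, 2 => sAu | s0, 3 => sAv | s0, 4 => sB | s0, 5 => sTU
  | s0, 6 => sBV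
  | sA, 0 => sA | sA, 1 => sTc | sA, 2 => sAu | sA, 3 => sAv
  | sAu, 2 => sAu
  | sAv, 3 => sAv
  | sB, 4 => sB | sB, 1 => sTU | sB, 5 => sTU | sB, 6 => sBV
  | sBV, 6 => sBV
  | sT0, 0 => sTc | sT0, 2 => sEnd | sT0, 3 => sEnd | sT0, 4 => sTC | sT0, 5 => sTU
  | sT0, 6 => sEnd
  | sTc, 0 => sTc | sTc, 2 => sEnd
  | sTC, 4 => sTC | sTC, 5 => sTU
  | sTU, 5 => sTU
  | _, _ => dead

def M : DFA A St where
  step s a := dl s (rk a)
  start := s0
  accept := {s | s ≠ dead}

def Acc (s : St) (w : List A) : Prop := M.evalFrom s w ≠ dead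

theorem acc_cons (s : St) (a : A) (w : List A) : Acc s (a :: w) ↔ Acc (dl s (rk a)) w := Iff.rfl
theorem acc_nil (s : St) : Acc s [] ↔ s ≠ dead := Iff.rfl

theorem not_acc_dead (w : List A) : ¬ Acc dead w := by
  induction w with
  | nil => simp [acc_nil]
  | cons a w ih => rw [acc_cons]; exact ih

def P : St → ℤ → ℤ → Bool → ℤ → Prop
  | s0, p, q, e, n => n.toNat = Lc ⟨p, q, e⟩
  | sA, p, q, e, n => (e = false ∧ ((p = n ∧ 0 ≤ q ∧ q ≤ p) ∨ (q = n ∧ 0 ≤ p ∧ p ≤ q))) ∨
      (e = true ∧ p + 1 = n ∧ -p ≤ q ∧ q ≤ p)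
  | sAu, p, q, e, n => e = false ∧ p = n ∧ q = 0
  | sAv, p, q, e, n => e = false ∧ p = 0 ∧ q = n
  | sB, p, q, e, n => (e = false ∧ ((p = -n ∧ q ≤ 0 ∧ p ≤ q) ∨ (q = -n ∧ p ≤ 0 ∧ q ≤ p))) ∨
      (e = true ∧ -p + 1 = n ∧ p ≤ q ∧ q ≤ 0)
  | sBV, p, q, e, n => e = false ∧ p = 0 ∧ q = -n
  | sT0, p, q, e, n => e = false ∧ ((p = n ∧ 0 ≤ q ∧ (q = n ∨ q = n - 1)) ∨ (p = -n ∧ q ≤ 0 ∧ p ≤ q) ∨
      (p = 0 ∧ n = 1 ∧ (q = 1 ∨ q = -1)))
  | sTc, p, q, e, n => e = false ∧ p = n ∧ 0 ≤ q ∧ (q = n ∨ q = n - 1)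
  | sTC, p, q, e, n => e = false ∧ p = -n ∧ q ≤ 0 ∧ p ≤ q
  | sTU, p, q, e, n => e = false ∧ p = -n ∧ q = 0
  | sEnd, p, q, e, n => e = false ∧ p = 0 ∧ q = 0 ∧ n = 0
  | dead, _, _, _, _ => False

theorem forall_A (Q : A → Prop) :
    (∀ a, Q a) ↔ Q lc ∧ Q lt ∧ Q lu ∧ Q lv ∧ Q lC ∧ Q lU ∧ Q lV := by
  constructor
  · intro h; exact ⟨h _, h _, h _, h _, h _, h _, h _⟩
  · rintro ⟨h1, h2, h3, h4, h5, h6, h7⟩ a
    rcases A_cases a with rfl | rfl | rfl | rfl | rfl | rfl | rfl <;> assumption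

@[simp] theorem vc : (lc : K) = ⟨1, 1, false⟩ := rfl
@[simp] theorem vt : (lt : K) = ⟨0, 0, true⟩ := rfl
@[simp] theorem vu : (lu : K) = ⟨1, 0, false⟩ := rfl
@[simp] theorem vv : (lv : K) = ⟨0, 1, false⟩ := rfl
@[simp] theorem vC : (lC : K) = ⟨-1, -1, false⟩ := rfl
@[simp] theorem vU : (lU : K) = ⟨-1, 0, false⟩ := rfl
@[simp] theorem vV : (lV : K) = ⟨0, -1, false⟩ := rfl

theorem mk_mul_f (p q p' q' : ℤ) (e : Bool) :
    (⟨p, q, false⟩ : K) * ⟨p', q', e⟩ = ⟨p + p', q + q', e⟩ := by ext <;> simp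
theorem mk_mul_t (p q p' q' : ℤ) (e : Bool) :
    (⟨p, q, true⟩ : K) * ⟨p', q', e⟩ = ⟨p + p', q - q', !e⟩ := by
  ext <;> simp [sub_eq_add_neg]
theorem mk_inv_f (p q : ℤ) : (⟨p, q, false⟩ : K)⁻¹ = ⟨-p, -q, false⟩ := rfl
theorem mk_inv_t (p q : ℤ) : (⟨p, q, true⟩ : K)⁻¹ = ⟨-p, q, true⟩ := rfl
theorem L_f (p q : ℤ) : L ⟨p, q, false⟩ =
    min (max (max p.natAbs q.natAbs) (p - q).natAbs) (max p.natAbs q.natAbs + 2) := rfl
theorem L_t (p q : ℤ) : L ⟨p, q, true⟩ = max p.natAbs q.natAbs + 1 := rfl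
theorem Lc_f (p q : ℤ) : Lc ⟨p, q, false⟩ = max p.natAbs q.natAbs := rfl
theorem Lc_t (p q : ℤ) : Lc ⟨p, q, true⟩ = max p.natAbs (q % 2).natAbs + 1 := rfl

theorem step_ok (s : St) (a : A) (g : K) (n : ℕ) (h : P (dl s (rk a)) g.p g.q g.e n) :
    P s (a.1 * g).p (a.1 * g).q (a.1 * g).e (n + 1) ∧ L (a.1 * g) = n + 1 ∧
      ∀ y, r y a → n < L (y.1⁻¹ * (a.1 * g)) := by
  obtain ⟨p, q, e⟩ := g
  rw [forall_A]
  cases s <;> rcases A_cases a with rfl | rfl | rfl | rfl | rfl | rfl | rfl <;>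
    simp only [rk_c, rk_t, rk_u, rk_v, rk_C, rk_U, rk_V, dl, P] at h <;> cases e <;>
    simp only [Bool.false_eq_true, Bool.true_eq_false, false_and, true_and, or_false,
      false_or] at h <;>
    simp only [r, rk_c, rk_t, rk_u, rk_v, rk_C, rk_U, rk_V, vc, vt, vu, vv, vC, vU, vV,
      mk_mul_f, mk_mul_t, mk_inv_f, mk_inv_t, Bool.not_true, Bool.not_false, P, L_f, L_t, Lc_f,
      Lc_t, Bool.false_eq_true, Bool.true_eq_false, false_and, true_and, or_false,
      false_or] <;>
    refine ⟨?_, ?_, ?_, ?_, ?_, ?_, ?_, ?_, ?_⟩ <;> omega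

theorem acc_good (w : List A) : ∀ s, Acc s w →
    Good Subtype.val r L w ∧
      P s (val Subtype.val w).p (val Subtype.val w).q (val Subtype.val w).e w.length := by
  induction w with
  | nil =>
    intro s h
    refine ⟨trivial, ?_⟩
    cases s <;> simp [P, Lc, acc_nil] at h ⊢
  | cons a w ih =>
    intro s h
    rw [acc_cons] at h
    obtain ⟨g1, g2⟩ := ih _ h
    obtain ⟨h1, h2, h3⟩ := step_ok s a _ _ g2
    refine ⟨⟨g1, h2, h3⟩, ?_⟩
    rw [val_cons]; simpa using h1

theorem pow_f (p q : ℤ) (i : ℕ) : (⟨p, q, false⟩ : K) ^ i = ⟨i * p, i * q, false⟩ := by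
  induction i with
  | zero => ext <;> simp
  | succ i ih => rw [pow_succ, ih, mk_mul_f]; ext <;> simp <;> ring

theorem acc_loop (s : St) (a : A) (w : List A) (h : dl s (rk a) = s) (hw : Acc s w) (i : ℕ) :
    Acc s (List.replicate i a ++ w) := by
  induction i with
  | zero => simpa using hw
  | succ i ih => rw [List.replicate_succ, List.cons_append, acc_cons, h]; exact ih

theorem acc_run (s s' : St) (a : A) (w : List A) (h : dl s (rk a) = s') (h' : dl s' (rk a) = s')
    (hw : Acc s w) (hw' : Acc s' w) (i : ℕ) : Acc s (List.replicate i a ++ w) := by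
  cases i with
  | zero => simpa using hw
  | succ i => rw [List.replicate_succ, List.cons_append, acc_cons, h]; exact acc_loop _ _ _ h' hw' i

theorem acc_run0 (s s' : St) (a : A) (h : dl s (rk a) = s') (h' : dl s' (rk a) = s')
    (hw : s ≠ dead) (hw' : s' ≠ dead) (i : ℕ) : Acc s (List.replicate i a) := by
  have := acc_run s s' a [] h h' hw hw' i
  simpa using this

theorem acc_two (s1 s2 : St) (a b : A) (h1 : dl s0 (rk a) = s1) (h2 : dl s1 (rk a) = s1)
    (h3 : dl s0 (rk b) = s2) (h4 : dl s1 (rk b) = s2) (h5 : dl s2 (rk b) = s2)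
    (d1 : s1 ≠ dead) (d2 : s2 ≠ dead) (i j : ℕ) :
    Acc s0 (List.replicate i a ++ List.replicate j b) :=
  acc_run s0 s1 a _ h1 h2 (acc_run0 _ _ _ h3 h5 (by decide) d2 j) (acc_run0 _ _ _ h4 h5 d1 d2 j) i

def E (g : K) : Prop :=
  if g.e then (g.q.natAbs ≤ g.p.natAbs ∨ (g.p = 0 ∧ g.q.natAbs = 1))
  else ((0 ≤ g.p ∧ 0 ≤ g.q) ∨ (g.p ≤ 0 ∧ g.q ≤ 0))

theorem E_acc (g : K) (h : E g) : ∃ w, Acc s0 w ∧ val Subtype.val w = g := by
  obtain ⟨p, q, e⟩ := g
  cases e
  · simp only [E, Bool.false_eq_true, if_false] at h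
    rcases h with ⟨hp, hq⟩ | ⟨hp, hq⟩
    · rcases le_total q p with h | h
      · refine ⟨_, acc_two sA sAu lc lu (by decide) (by decide) (by decide) (by decide) (by decide)
          (by decide) (by decide) q.toNat (p - q).toNat, ?_⟩
        simp only [val_append, val_replicate, vc, vu, pow_f, mk_mul_f]
        ext <;> simp only [] <;> omega
      · refine ⟨_, acc_two sA sAv lc lv (by decide) (by decide) (by decide) (by decide) (by decide)
          (by decide) (by decide) p.toNat (q - p).toNat, ?_⟩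
        simp only [val_append, val_replicate, vc, vv, pow_f, mk_mul_f]
        ext <;> simp only [] <;> omega
    · rcases le_total p q with h | h
      · refine ⟨_, acc_two sB sTU lC lU (by decide) (by decide) (by decide) (by decide) (by decide)
          (by decide) (by decide) (-q).toNat (q - p).toNat, ?_⟩
        simp only [val_append, val_replicate, vC, vU, pow_f, mk_mul_f]
        ext <;> simp only [] <;> omega
      · refine ⟨_, acc_two sB sBV lC lV (by decide) (by decide) (by decide) (by decide) (by decide)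
          (by decide) (by decide) (-p).toNat (p - q).toNat, ?_⟩
        simp only [val_append, val_replicate, vC, vV, pow_f, mk_mul_f]
        ext <;> simp only [] <;> omega
  · simp only [E, if_true] at h
    rcases h with h | ⟨hp, hq⟩
    · rcases le_total 0 p with hp | hp
      · by_cases hpar : (p + q) % 2 = 0
        · refine ⟨List.replicate ((p + q) / 2).toNat lc ++
            (lt :: List.replicate ((p - q) / 2).toNat lc), ?_, ?_⟩
          · refine acc_run s0 sA _ _ (by decide) (by decide) ?_ ?_ _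
            · rw [acc_cons]
              exact acc_run0 _ sTc _ (by decide) (by decide) (by decide) (by decide) _
            · rw [acc_cons]
              exact acc_run0 _ sTc _ (by decide) (by decide) (by decide) (by decide) _
          · simp only [val_append, val_cons, val_replicate, vc, vt, pow_f, mk_mul_f, mk_mul_t]
            ext <;> simp only [Bool.not_false] <;> omega
        · refine ⟨List.replicate ((p + q) / 2).toNat lc ++
            (lt :: (List.replicate ((p - q) / 2).toNat lc ++ [lu])), ?_, ?_⟩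
          · refine acc_run s0 sA _ _ (by decide) (by decide) ?_ ?_ _
            · rw [acc_cons]
              refine acc_run _ sTc _ _ (by decide) (by decide) ?_ ?_ _ <;>
                (rw [acc_cons, acc_nil]; decide)
            · rw [acc_cons]
              refine acc_run _ sTc _ _ (by decide) (by decide) ?_ ?_ _ <;>
                (rw [acc_cons, acc_nil]; decide)
          · simp only [val_append, val_cons, val_nil, mul_one, val_replicate, vc, vt, vu, pow_f,
              mk_mul_f, mk_mul_t]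
            ext <;> simp only [Bool.not_false] <;> omega
      · rcases le_total 0 q with hq | hq
        · refine ⟨lt :: (List.replicate q.toNat lC ++ List.replicate (-p - q).toNat lU), ?_, ?_⟩
          · rw [acc_cons]
            refine acc_run _ sTC _ _ (by decide) (by decide) ?_ ?_ _ <;>
              exact acc_run0 _ sTU _ (by decide) (by decide) (by decide) (by decide) _
          · simp only [val_append, val_cons, val_replicate, vC, vt, vU, pow_f,
              mk_mul_f, mk_mul_t]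
            ext <;> simp only [Bool.not_false] <;> omega
        · refine ⟨List.replicate (-q).toNat lC ++ (lt :: List.replicate (q - p).toNat lU), ?_, ?_⟩
          · refine acc_run s0 sB _ _ (by decide) (by decide) ?_ ?_ _ <;>
              (rw [acc_cons]
               exact acc_run0 _ sTU _ (by decide) (by decide) (by decide) (by decide) _)
          · simp only [val_append, val_cons, val_replicate, vC, vt, vU, pow_f,
              mk_mul_f, mk_mul_t]
            ext <;> simp only [Bool.not_false] <;> omega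
    · subst hp
      have : q = 1 ∨ q = -1 := by omega
      rcases this with rfl | rfl
      · exact ⟨[lt, lV], by rw [acc_cons, acc_cons, acc_nil]; decide, by decide⟩
      · exact ⟨[lt, lv], by rw [acc_cons, acc_cons, acc_nil]; decide, by decide⟩

theorem E_or (g : K) : E g ∨ ∃ h, IsConj g h ∧ E h ∧ Lc h < L g := by
  by_cases hg : E g
  · exact Or.inl hg
  right
  obtain ⟨p, q, e⟩ := g
  cases e
  · refine ⟨⟨p, -q, false⟩, isConj_iff.mpr ⟨⟨0, 0, true⟩, ?_⟩, ?_, ?_⟩
    · ext <;> simp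
    · simp only [E, Bool.false_eq_true, if_false] at hg ⊢; omega
    · simp only [E, Bool.false_eq_true, if_false] at hg
      rw [Lc_f, L_f]; omega
  · refine ⟨⟨p, q % 2, true⟩, isConj_iff.mpr ⟨⟨0, -(q / 2), false⟩, ?_⟩, ?_, ?_⟩
    · ext <;> simp
      omega
    · simp only [E, if_true] at hg ⊢; omega
    · simp only [E, if_true] at hg
      rw [Lc_t, L_t]; omega

theorem acc_len (w : List A) (h : Acc s0 w) : w.length = Lc (val Subtype.val w) := by
  have := (acc_good w s0 h).2
  simpa [P] using this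

theorem ecl_K (w : List A) :
    w ∈ M.accepts ↔ SL Subtype.val r w ∧ CM Subtype.val w := by
  have hacc : w ∈ M.accepts ↔ Acc s0 w := Iff.rfl
  rw [hacc]
  constructor
  · intro h
    refine ⟨good_SL _ _ L r_sto L_one L_step w (acc_good w s0 h).1, ?_⟩
    intro w' hc
    rw [acc_len w h, Lc_conj _ _ hc]
    exact (Lc_le _).trans (L_le _ L L_one L_step w')
  · rintro ⟨h1, h2⟩
    rcases E_or (val Subtype.val w) with hE | ⟨g, hc, hE, hl⟩
    · obtain ⟨w0, a1, a2⟩ := E_acc _ hE
      have := SL_unique _ r r_sto w w0 h1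
        (good_SL _ _ L r_sto L_one L_step w0 (acc_good w0 s0 a1).1) a2.symm
      rw [this]; exact a1
    · obtain ⟨w0, a1, a2⟩ := E_acc _ hE
      have b1 := h2 w0 (a2 ▸ hc)
      have b2 := acc_len w0 a1
      have b3 := L_le _ L L_one L_step w
      rw [a2] at b2; omega

theorem exists_word (g : K) : ∃ w : List A, val Subtype.val w = g := by
  obtain ⟨p, q, e⟩ := g
  have h1 : ∀ p q : ℤ, ∃ w : List A, val Subtype.val w = ⟨p, q, false⟩ := by
    intro p q
    refine ⟨List.replicate p.toNat lu ++ List.replicate (-p).toNat lU ++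
      List.replicate q.toNat lv ++ List.replicate (-q).toNat lV, ?_⟩
    simp only [val_append, val_replicate, vu, vU, vv, vV, pow_f, mk_mul_f]
    ext <;> simp only [] <;> omega
  cases e
  · exact h1 p q
  · obtain ⟨w, hw⟩ := h1 p q
    refine ⟨w ++ [lt], ?_⟩
    rw [val_append, hw]; ext <;> simp

theorem closure_X : Subgroup.closure (X : Set K) = ⊤ := by
  rw [eq_top_iff]
  intro g _
  obtain ⟨w, rfl⟩ := exists_word g
  apply Subgroup.list_prod_mem
  intro x hx
  obtain ⟨a, _, rfl⟩ := List.mem_map.mp hx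
  exact Subgroup.subset_closure a.2

end Pool.Agent.H.MP_b2345f_al
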