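import Pool.Agent.H.MP_b2345f_al.Ecl

set_option autoImplicit false

namespace Pool.Agent.H.MP_b2345f_al

open Monoid Monoid.CoprodI

abbrev GG : Fin 2 → Type := fun _ => K
abbrev HH : Type := CoprodI GG
abbrev B : Type := Σ _ : Fin 2, A

def evB (s : B) : HH := of (M := GG) (i := s.1) s.2.1

def ell (w : Word GG) : ℕ := (w.toList.map (fun x => L x.2)).sum

theorem ell_rcons {i : Fin 2} (p : Word.Pair GG i) : ell (Word.rcons p) = L p.head + ell p.tail := by
  unfold Word.rcons
  split_ifs with h
  · rw [h, L_one]; simp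
  · simp [ell, Word.cons]

theorem ell_step (i : Fin 2) (x : A) (w : Word GG) :
    ell (of (M := GG) (i := i) x.1 • w) ≤ ell w + 1 := by
  rw [Word.of_smul_def, ell_rcons]
  have h : Word.rcons (Word.equivPair i w) = w := by
    rw [← Word.equivPair_symm]; simp
  have h2 := ell_rcons (Word.equivPair i w)
  rw [h] at h2
  have := L_step x (Word.equivPair i w).head
  simp only [] at *
  omega

theorem ell_ne (i : Fin 2) (g : K) (w : Word GG) (h : w.fstIdx ≠ some i) :
    ell (of (M := GG) (i := i) g • w) = L g + ell w := by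
  have := Word.rcons_eq_smul (M := GG) (i := i) ⟨g, w, h⟩
  simp only [] at this
  rw [← this, ell_rcons]

theorem fst_ne (i : Fin 2) (g : K) (hg : g ≠ 1) (w : Word GG) (h : w.fstIdx ≠ some i) :
    (of (M := GG) (i := i) g • w).fstIdx = some i := by
  have := Word.rcons_eq_smul (M := GG) (i := i) ⟨g, w, h⟩
  simp only [] at this
  rw [← this, Word.rcons, dif_neg hg]
  simp

def LH (h : HH) : ℕ := ell (h • (Word.empty : Word GG))

theorem LH_one : LH 1 = 0 := by simp [LH, ell]

theorem LH_step (x : B) (h : HH) : LH (evB x * h) ≤ LH h + 1 := by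
  unfold LH evB
  rw [mul_smul]
  exact ell_step _ _ _

def o0 (g : K) : HH := of (M := GG) (i := 0) g
def o1 (g : K) : HH := of (M := GG) (i := 1) g

def tt : K := ⟨0, 0, true⟩

theorem tt_ne : tt ≠ 1 := by decide

theorem empty_ne (i : Fin 2) : (Word.empty : Word GG).fstIdx ≠ some i := by
  simp [Word.fstIdx]

theorem fst_t : (o1 tt • (Word.empty : Word GG)).fstIdx = some 1 :=
  fst_ne 1 tt tt_ne _ (empty_ne 1)

theorem LH_1 (g : K) : LH (o1 g) = L g := by
  unfold LH o1
  rw [ell_ne 1 g _ (empty_ne 1)]; simp [ell]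

theorem LH_01 (g : K) : LH (o0 g * o1 tt) = L g + 1 := by
  have := LH_1 tt
  unfold LH at *
  rw [mul_smul]
  unfold o0
  rw [ell_ne 0 g _ (by rw [fst_t]; decide), this]; rfl

theorem LH_101 (k g : K) (hg : g ≠ 1) : LH (o1 k * (o0 g * o1 tt)) = L k + (L g + 1) := by
  have := LH_01 g
  unfold LH at *
  rw [mul_smul]
  unfold o1 at *
  rw [ell_ne 1 k, this]
  rw [mul_smul]
  unfold o0
  rw [fst_ne 0 g hg _ (by have := fst_t; unfold o1 at this; rw [this]; decide)]
  decide

theorem LH_pow (g : K) (hg : g ≠ 1) (n : ℕ) :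
    LH ((o0 g * o1 tt) ^ n) = n * (L g + 1) ∧
      (((o0 g * o1 tt) ^ n) • (Word.empty : Word GG)).fstIdx ≠ some 1 := by
  induction n with
  | zero => simp [LH_one, empty_ne]
  | succ n ih =>
    obtain ⟨h1, h2⟩ := ih
    unfold LH at *
    rw [pow_succ', mul_smul, mul_smul]
    have a1 := fst_ne 1 tt tt_ne _ h2
    have a2 := ell_ne 1 tt _ h2
    have a3 : (o1 tt • ((o0 g * o1 tt) ^ n • (Word.empty : Word GG))).fstIdx ≠ some 0 := by
      unfold o1 at *; rw [a1]; decide
    constructor
    · have := ell_ne 0 g _ a3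
      have lt1 : L tt = 1 := rfl
      unfold o0 o1 at *
      rw [this, a2, h1, lt1]; ring
    · have := fst_ne 0 g hg _ a3
      unfold o0 o1 at *
      rw [this]; decide

def in0 (a : A) : B := ⟨0, a⟩

theorem val_in0 (w : List A) : val evB (w.map in0) = o0 (val Subtype.val w) := by
  induction w with
  | nil => simp [o0]
  | cons a w ih => rw [List.map_cons, val_cons, val_cons, ih]; simp [o0, evB, in0]

theorem exists_wordH (h : HH) : ∃ w : List B, val evB w = h := by
  induction h using CoprodI.induction_on with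
  | one => exact ⟨[], rfl⟩
  | of i g =>
    obtain ⟨w, rfl⟩ := exists_word g
    refine ⟨w.map (fun a => ⟨i, a⟩), ?_⟩
    induction w with
    | nil => simp
    | cons a w ih => rw [List.map_cons, val_cons, val_cons, ih]; simp [evB]
  | mul x y hx hy =>
    obtain ⟨u, rfl⟩ := hx
    obtain ⟨w, rfl⟩ := hy
    exact ⟨u ++ w, by simp⟩

theorem L_pos (g : K) (hg : g ≠ 1) : 0 < L g := by
  obtain ⟨p, q, e⟩ := g
  cases e
  · rw [L_f]
    have : ¬ (p = 0 ∧ q = 0) := by
      rintro ⟨rfl, rfl⟩; exact hg rfl
    omega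
  · rw [L_t]; omega

theorem A_ne (a : A) : a.1 ≠ 1 := by
  rcases A_cases a with rfl | rfl | rfl | rfl | rfl | rfl | rfl <;> decide

theorem good_lift (R : B → B → Prop) (hR : ∀ i (a b : A), R ⟨i, a⟩ ⟨i, b⟩ ↔ r a b)
    (w : List A) (hw : Good Subtype.val r L w) : Good evB R LH (w.map in0 ++ [⟨1, lt⟩]) := by
  induction w with
  | nil =>
    refine ⟨trivial, ?_, ?_⟩
    · simp only [val_nil, mul_one, List.length_nil]
      exact LH_1 tt
    · rintro ⟨i, y⟩ hy
      simp only [val_nil, mul_one, List.length_nil]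
      fin_cases i
      · have := LH_01 (y.1⁻¹)
        have e : (evB ⟨0, y⟩)⁻¹ * evB ⟨1, lt⟩ = o0 (y.1⁻¹) * o1 tt := by
          simp [evB, o0, o1, tt]
        simp only [Fin.zero_eta]
        rw [e, this]; omega
      · have hy' : r y lt := (hR 1 y lt).mp hy
        have e : (evB ⟨1, y⟩)⁻¹ * evB ⟨1, lt⟩ = o1 (y.1⁻¹ * tt) := by
          simp [evB, o1, tt]
        simp only [Fin.mk_one]
        rw [e, LH_1]
        apply L_pos
        intro h
        have : y = lt := Subtype.ext (by rw [inv_mul_eq_one] at h; exact h)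
        rw [this] at hy'
        exact r_sto.irrefl _ hy'
  | cons x w ih =>
    obtain ⟨g1, g2, g3⟩ := hw
    have hv : evB (in0 x) * val evB (w.map in0 ++ [⟨1, lt⟩]) =
        o0 (x.1 * val Subtype.val w) * o1 tt := by
      rw [val_append, val_in0]; simp [evB, in0, o0, o1, tt, mul_assoc]
    rw [List.map_cons, List.cons_append, Good, hv]
    refine ⟨ih g1, ?_, ?_⟩
    · rw [LH_01, g2]; simp
    · rintro ⟨i, y⟩ hy
      simp only [List.length_append, List.length_map, List.length_singleton]
      fin_cases i
      · have hy' : r y x := (hR 0 y x).mp hy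
        have e : (evB ⟨0, y⟩)⁻¹ * (o0 (x.1 * val Subtype.val w) * o1 tt) =
            o0 (y.1⁻¹ * (x.1 * val Subtype.val w)) * o1 tt := by
          simp [evB, o0, mul_assoc]
        simp only [Fin.zero_eta]
        rw [e, LH_01]
        have := g3 y hy'; omega
      · have e : (evB ⟨1, y⟩)⁻¹ = o1 (y.1⁻¹) := by simp [evB, o1]
        simp only [Fin.mk_one]
        have hne : x.1 * val Subtype.val w ≠ 1 := by
          intro h; rw [h, L_one] at g2; omega
        rw [e, LH_101 _ _ hne, g2]
        omega

theorem cm_lift (w : List A) (hne : val Subtype.val w ≠ 1)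
    (hw : L (val Subtype.val w) = w.length) : CM evB (w.map in0 ++ [⟨1, lt⟩]) := by
  intro w' hc
  have hv : val evB (w.map in0 ++ [⟨1, lt⟩]) = o0 (val Subtype.val w) * o1 tt := by
    rw [val_append, val_in0]; simp [evB, o1, tt]
  rw [hv] at hc
  obtain ⟨k, hk⟩ := isConj_iff.mp hc.symm
  obtain ⟨u1, rfl⟩ := exists_wordH k
  obtain ⟨u2, hu2⟩ := exists_wordH (val evB u1)⁻¹
  simp only [List.length_append, List.length_map, List.length_singleton]
  by_contra hlt
  have key : ∀ n : ℕ, n * (w.length + 1) ≤ u1.length + n * w'.length + u2.length := by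
    intro n
    have h1 := (LH_pow _ hne n).1
    rw [← hk, conj_pow, hw] at h1
    have h2 : val evB (u1 ++ (List.replicate n w').flatten ++ u2) =
        val evB u1 * val evB w' ^ n * (val evB u1)⁻¹ := by
      rw [val_append, val_append, hu2]
      congr 2
      clear h1
      induction n with
      | zero => simp
      | succ n ih => rw [List.replicate_succ, List.flatten_cons, val_append, ih, pow_succ']
    have h3 := L_le evB LH LH_one LH_step (u1 ++ (List.replicate n w').flatten ++ u2)
    rw [h2, h1] at h3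
    simpa [add_assoc] using h3
  have := key (u1.length + u2.length + 1)
  have h4 : w'.length ≤ w.length := by omega
  nlinarith

def ww (m n : ℕ) : List A := List.replicate m lc ++ (lt :: (List.replicate n lc ++ [lt]))

theorem good_rep (w : List A) (hw : Good Subtype.val r L w) (m : ℕ)
    (h : ∀ j, j < m → L ((lc : K) * ((lc : K) ^ j * val Subtype.val w)) = j + w.length + 1) :
    Good Subtype.val r L (List.replicate m lc ++ w) := by
  induction m with
  | zero => simpa using hw
  | succ m ih =>
    refine ⟨ih (fun j hj => h j (by omega)), ?_, ?_⟩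
    · change L (_ * val Subtype.val (List.replicate m lc ++ w)) =
        (List.replicate m lc ++ w).length + 1
      rw [val_append, val_replicate, h m (by omega)]; simp
    · intro y hy; simp [r] at hy

theorem val_ww (m n : ℕ) : val Subtype.val (ww m n) = ⟨m + n, m - n, false⟩ := by
  simp only [ww, val_append, val_cons, val_nil, mul_one, val_replicate, vc, vt, pow_f, mk_mul_f,
    mk_mul_t]
  ext <;> simp only [Bool.not_true] <;> omega

theorem good_ww (m n : ℕ) (h : m + 2 ≤ n) : Good Subtype.val r L (ww m n) := by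
  have h1 : Good Subtype.val r L (List.replicate n lc ++ [lt]) := by
    refine (acc_good _ St.s0 ?_).1
    refine acc_run _ St.sA _ _ (by decide) (by decide) ?_ ?_ _ <;>
      (rw [acc_cons, acc_nil]; decide)
  have hv : val Subtype.val (List.replicate n lc ++ [lt]) = ⟨n, n, true⟩ := by
    simp only [val_append, val_cons, val_nil, mul_one, val_replicate, vc, vt, pow_f, mk_mul_f]
    ext <;> simp
  have h2 : Good Subtype.val r L (lt :: (List.replicate n lc ++ [lt])) := by
    refine ⟨h1, ?_, ?_⟩
    · rw [hv]; simp only [vt, mk_mul_t, Bool.not_true, L_f, List.length_append,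
        List.length_replicate, List.length_singleton]
      omega
    · rw [forall_A, hv]
      simp only [r, rk_c, rk_t, rk_u, rk_v, rk_C, rk_U, rk_V, vc, vt, vu, vv, vC, vU, vV,
        mk_mul_f, mk_mul_t, mk_inv_f, mk_inv_t, Bool.not_true, Bool.not_false, L_f, L_t,
        List.length_append, List.length_replicate, List.length_singleton]
      refine ⟨?_, ?_, ?_, ?_, ?_, ?_, ?_⟩ <;> omega
  refine good_rep _ h2 m ?_
  intro j hj
  rw [val_cons, hv]
  simp only [vc, vt, pow_f, mk_mul_f, mk_mul_t, Bool.not_true, L_f, List.length_append,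
    List.length_cons, List.length_replicate, List.length_nil]
  omega

def WW (m n : ℕ) : List B := (ww m n).map in0 ++ [⟨1, lt⟩]

theorem WW_yes (R : B → B → Prop) (hs : IsStrictTotalOrder B R)
    (hR : ∀ i (a b : A), R ⟨i, a⟩ ⟨i, b⟩ ↔ r a b) (m n : ℕ) (h : m + 2 ≤ n) :
    SL evB R (WW m n) ∧ CM evB (WW m n) := by
  refine ⟨good_SL _ _ LH hs LH_one LH_step _ (good_lift R hR _ (good_ww m n h)), cm_lift _ ?_ ?_⟩
  · rw [val_ww]; intro h1
    have := congrArg K.p h1
    simp only [one_p] at this; omega
  · rw [val_ww, L_f]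
    simp only [ww, List.length_append, List.length_cons, List.length_replicate, List.length_nil]
    omega

theorem WW_no (R : B → B → Prop) (m n : ℕ) (h : n ≤ m) : ¬ SL evB R (WW m n) := by
  intro hs
  have := hs ((List.replicate (m - n) lc ++ List.replicate (2 * n) lu).map in0 ++ [⟨1, lt⟩]) (by
    rw [WW, val_append, val_append, val_in0, val_in0, val_ww]
    congr 2
    simp only [val_append, val_replicate, vc, vu, pow_f, mk_mul_f]
    ext <;> simp only [] <;> omega)
  simp only [WW, ww, List.length_append, List.length_map, List.length_cons,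
    List.length_replicate, List.length_nil] at this
  omega

theorem not_reg (R : B → B → Prop) (hs : IsStrictTotalOrder B R)
    (hR : ∀ i (a b : A), R ⟨i, a⟩ ⟨i, b⟩ ↔ r a b) (σ : Type) [Finite σ] (N : DFA B σ)
    (hN : ∀ w, w ∈ N.accepts ↔ SL evB R w ∧ CM evB w) : False := by
  have key : ∀ a b : ℕ, a < b → N.eval (List.replicate (2 * a) (in0 lc)) =
      N.eval (List.replicate (2 * b) (in0 lc)) → False := by
    intro a b hab he
    have h1 := (hN _).mpr (WW_yes R hs hR (2 * a) (2 * a + 2) le_rfl)
    have h2 : WW (2 * b) (2 * a + 2) ∈ N.accepts := by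
      rw [DFA.mem_accepts] at h1 ⊢
      simp only [WW, ww, List.map_append, List.map_replicate, List.append_assoc, DFA.eval,
        DFA.evalFrom_of_append] at h1 he ⊢
      rw [← he]; exact h1
    exact WW_no R _ _ (by omega) ((hN _).mp h2).1
  obtain ⟨a, b, hab, he⟩ := Finite.exists_ne_map_eq_of_infinite
    (fun a : ℕ => N.eval (List.replicate (2 * a) (in0 lc)))
  rcases lt_or_gt_of_ne hab with h | h
  · exact key a b h he
  · exact key b a h he.symm

end Pool.Agent.H.MP_b2345f_al
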