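import Mathlib

set_option autoImplicit false

namespace Pool.Agent.H.MP_b2345f_al

section Gen
variable {A G : Type} [Group G] (ev : A → G) (r : A → A → Prop) (L : G → ℕ)

def val (w : List A) : G := (w.map ev).prod

@[simp] theorem val_nil : val ev [] = 1 := rfl
@[simp] theorem val_cons (x : A) (w : List A) : val ev (x :: w) = ev x * val ev w := by
  simp [val]
@[simp] theorem val_append (u w : List A) : val ev (u ++ w) = val ev u * val ev w := by
  simp [val]
@[simp] theorem val_replicate (i : ℕ) (x : A) : val ev (List.replicate i x) = ev x ^ i := by
  simp [val]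

def SL (w : List A) : Prop :=
  ∀ w' : List A, val ev w' = val ev w →
    w.length < w'.length ∨ (w.length = w'.length ∧ (w = w' ∨ List.Lex r w w'))

def CM (w : List A) : Prop :=
  ∀ w' : List A, IsConj (val ev w) (val ev w') → w.length ≤ w'.length

def Good : List A → Prop
  | [] => True
  | x :: w => Good w ∧ L (ev x * val ev w) = w.length + 1 ∧
      ∀ y, r y x → w.length < L ((ev y)⁻¹ * (ev x * val ev w))

theorem L_le (h1 : L 1 = 0) (hs : ∀ x g, L (ev x * g) ≤ L g + 1) (w : List A) :
    L (val ev w) ≤ w.length := by
  induction w with
  | nil => simp [h1]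
  | cons x w ih => rw [val_cons]; have := hs x (val ev w); simp only [List.length_cons]; omega

theorem good_SL (hr : IsStrictTotalOrder A r) (h1 : L 1 = 0)
    (hs : ∀ x g, L (ev x * g) ≤ L g + 1) (w : List A) (hw : Good ev r L w) : SL ev r w := by
  induction w with
  | nil =>
    intro w' _
    cases w' with
    | nil => right; simp
    | cons y w' => left; simp
  | cons x w ih =>
    obtain ⟨g1, g2, g3⟩ := hw
    intro w' hv
    have hl := L_le ev L h1 hs w'
    rw [hv, val_cons, g2] at hl
    rcases Nat.lt_or_ge (w.length + 1) w'.length with h | h
    · left; simpa using h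
    · right
      have he : w'.length = w.length + 1 := by omega
      refine ⟨by simp [he], ?_⟩
      cases w' with
      | nil => simp at he
      | cons y w'' =>
        have he' : w''.length = w.length := by simpa using he
        have hv' : val ev w'' = (ev y)⁻¹ * (ev x * val ev w) := by
          rw [val_cons, val_cons] at hv; rw [← hv]; simp
        rcases hr.trichotomous x y with hxy
        by_cases a1 : r x y
        · right; exact List.Lex.rel a1
        by_cases a2 : r y x
        · have := g3 y a2
          have h2 := L_le ev L h1 hs w''
          rw [hv'] at h2; omega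
        have : x = y := hxy a1 a2
        subst this
        have hv2 : val ev w'' = val ev w := by rw [hv']; simp
        rcases ih g1 w'' hv2 with h3 | ⟨_, h3 | h3⟩
        · omega
        · left; rw [h3]
        · right; exact List.Lex.cons h3

theorem lex_asymm (hr : IsStrictTotalOrder A r) :
    ∀ (u w : List A), List.Lex r u w → List.Lex r w u → False := by
  intro u w h
  induction h with
  | nil => intro h2; cases h2
  | @rel a l b l' hab =>
    intro h2
    cases h2 with
    | rel h3 => exact hr.irrefl _ (hr.trans _ _ _ hab h3)
    | cons h3 => exact hr.irrefl _ hab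
  | @cons a l l' _ ih =>
    intro h2
    cases h2 with
    | rel h3 => exact hr.irrefl _ h3
    | cons h3 => exact ih h3

theorem SL_unique (hr : IsStrictTotalOrder A r) (u w : List A) (hu : SL ev r u) (hw : SL ev r w)
    (h : val ev u = val ev w) : u = w := by
  rcases hu w h.symm with a | ⟨a, b | b⟩
  · rcases hw u h with c | ⟨c, _⟩ <;> omega
  · exact b
  · rcases hw u h with c | ⟨_, c | c⟩
    · omega
    · exact c.symm
    · exact (lex_asymm r hr _ _ b c).elim

end Gen

end Pool.Agent.H.MP_b2345f_al
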