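import Pool.Agent.H.MP_b2345f_al.Gen

set_option autoImplicit false

namespace Pool.Agent.H.MP_b2345f_al

@[ext] structure K where
  p : ℤ
  q : ℤ
  e : Bool
deriving DecidableEq

instance : Mul K := ⟨fun a b => ⟨a.p + b.p, a.q + (if a.e then -b.q else b.q), xor a.e b.e⟩⟩
instance : One K := ⟨⟨0, 0, false⟩⟩
instance : Inv K := ⟨fun a => ⟨-a.p, if a.e then a.q else -a.q, a.e⟩⟩

@[simp] theorem mul_p (a b : K) : (a * b).p = a.p + b.p := rfl
@[simp] theorem mul_q (a b : K) : (a * b).q = a.q + (if a.e then -b.q else b.q) := rfl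
@[simp] theorem mul_e (a b : K) : (a * b).e = xor a.e b.e := rfl
@[simp] theorem one_p : (1 : K).p = 0 := rfl
@[simp] theorem one_q : (1 : K).q = 0 := rfl
@[simp] theorem one_e : (1 : K).e = false := rfl
@[simp] theorem inv_p (a : K) : (a⁻¹).p = -a.p := rfl
@[simp] theorem inv_q (a : K) : (a⁻¹).q = if a.e then a.q else -a.q := rfl
@[simp] theorem inv_e (a : K) : (a⁻¹).e = a.e := rfl

instance : Group K := Group.ofLeftAxioms
  (by
    rintro ⟨p, q, e⟩ ⟨p', q', e'⟩ ⟨p'', q'', e''⟩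
    ext
    · simp; ring
    · cases e <;> cases e' <;> simp <;> ring
    · simp)
  (by rintro ⟨p, q, e⟩; ext <;> simp)
  (by rintro ⟨p, q, e⟩; cases e <;> ext <;> simp)

def X : Finset K :=
  {⟨1, 1, false⟩, ⟨0, 0, true⟩, ⟨1, 0, false⟩, ⟨0, 1, false⟩, ⟨-1, -1, false⟩, ⟨-1, 0, false⟩,
    ⟨0, -1, false⟩}

abbrev A : Type := {x // x ∈ X}

def lc : A := ⟨⟨1, 1, false⟩, by decide⟩
def lt : A := ⟨⟨0, 0, true⟩, by decide⟩
def lu : A := ⟨⟨1, 0, false⟩, by decide⟩
def lv : A := ⟨⟨0, 1, false⟩, by decide⟩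
def lC : A := ⟨⟨-1, -1, false⟩, by decide⟩
def lU : A := ⟨⟨-1, 0, false⟩, by decide⟩
def lV : A := ⟨⟨0, -1, false⟩, by decide⟩

theorem A_cases (a : A) :
    a = lc ∨ a = lt ∨ a = lu ∨ a = lv ∨ a = lC ∨ a = lU ∨ a = lV := by
  obtain ⟨x, hx⟩ := a
  simp only [X, Finset.mem_insert, Finset.mem_singleton] at hx
  rcases hx with rfl | rfl | rfl | rfl | rfl | rfl | rfl <;> simp [lc, lt, lu, lv, lC, lU, lV]

def rk (a : A) : ℕ :=
  if a = lc then 0 else if a = lt then 1 else if a = lu then 2 else if a = lv then 3 else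
  if a = lC then 4 else if a = lU then 5 else 6

@[simp] theorem rk_c : rk lc = 0 := by decide
@[simp] theorem rk_t : rk lt = 1 := by decide
@[simp] theorem rk_u : rk lu = 2 := by decide
@[simp] theorem rk_v : rk lv = 3 := by decide
@[simp] theorem rk_C : rk lC = 4 := by decide
@[simp] theorem rk_U : rk lU = 5 := by decide
@[simp] theorem rk_V : rk lV = 6 := by decide

def r (a b : A) : Prop := rk a < rk b

theorem rk_inj (a b : A) (h : rk a = rk b) : a = b := by
  rcases A_cases a with rfl | rfl | rfl | rfl | rfl | rfl | rfl <;>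
  rcases A_cases b with rfl | rfl | rfl | rfl | rfl | rfl | rfl <;>
  first | rfl | simp at h

theorem r_sto : IsStrictTotalOrder A r where
  trichotomous a b h1 h2 := rk_inj a b (by unfold r at h1 h2; omega)
  irrefl a := by unfold r; omega
  trans a b c h1 h2 := by unfold r at *; omega

theorem X_inv : ∀ x ∈ X, x⁻¹ ∈ X := by decide

def L (g : K) : ℕ :=
  if g.e then max g.p.natAbs g.q.natAbs + 1
  else min (max (max g.p.natAbs g.q.natAbs) (g.p - g.q).natAbs) (max g.p.natAbs g.q.natAbs + 2)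

def Lc (g : K) : ℕ :=
  if g.e then max g.p.natAbs (g.q % 2).natAbs + 1 else max g.p.natAbs g.q.natAbs

theorem L_one : L 1 = 0 := by decide

theorem L_step (x : A) (g : K) : L (x.1 * g) ≤ L g + 1 := by
  obtain ⟨p, q, e⟩ := g
  rcases A_cases x with rfl | rfl | rfl | rfl | rfl | rfl | rfl <;> cases e <;>
    simp [L, lc, lt, lu, lv, lC, lU, lV, -sup_le_iff, -inf_le_iff, -le_sup_iff, -le_inf_iff] <;>
    omega

theorem Lc_le (g : K) : Lc g ≤ L g := by
  obtain ⟨p, q, e⟩ := g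
  cases e <;> simp [L, Lc, -sup_le_iff, -inf_le_iff, -le_sup_iff, -le_inf_iff] <;> omega

theorem Lc_conj (g h : K) (hc : IsConj g h) : Lc g = Lc h := by
  obtain ⟨k, rfl⟩ := isConj_iff.mp hc
  obtain ⟨p, q, e⟩ := g
  obtain ⟨p', q', e'⟩ := k
  cases e <;> cases e' <;> simp [Lc] <;> omega

end Pool.Agent.H.MP_b2345f_al
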